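import Pool.Agent.H46.FF.Final

set_option autoImplicit false

namespace Pool.Agent.Results.MP_51ecca_nt.Linear

open Pool.Agent.H46.FF IntermediateField Filter Module

/-- Linear growth of the ramification index of `ℚ_{p,n}`. -/
theorem result (p : ℕ) [Fact p.Prime] (k K : Type) [Field k] [Finite k] [CharP k p] [Field K]
    [Algebra k K] [Algebra (RatFunc k) K] [IsScalarTower k (RatFunc k) K] [FunctionField k K]
    (F : ℕ → Type) [∀ n, Field (F n)] [∀ n, Algebra k (F n)] [∀ n, Algebra K (F n)]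
    [∀ n, IsScalarTower k K (F n)] (h : IsTower p k K F) :
    ∃ P : ℕ → Polynomial ℤ, (∀ n, IsZetaNum k (F n) (P n)) ∧ ∃ c : ℝ, 0 < c ∧ ∃ N : ℕ, ∀ n ≥ N,
      c * (p : ℝ) ^ n ≤
        ramIdx (adjoin ℚ_[p] {α | ((P n).map (Int.castRingHom ℂ_[p])).IsRoot α⁻¹}) := by
  obtain ⟨P, a, ⟨c, c0, N, b⟩, -⟩ := zeta_final h
  exact ⟨P, a, c, c0, N, fun n hn => (b n hn).1⟩

end Pool.Agent.Results.MP_51ecca_nt.Linear
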